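import Mathlib

/-!
# Operators satisfying the relation of the Lie algebra `sl2`
-/

namespace Pool.Agent.Y148.OP

variable {F : Type*} [Field F] [CharZero F] {V : Type*} [AddCommGroup V] [Module F V]

/-- Operators `E` and `Fo` of degrees `1` and `-1` on the spaces `G m` of weight `2 m - e`. -/
structure IsSl2 (E Fo : V →ₗ[F] V) (G : ℤ → Submodule F V) (e : ℤ) : Prop where
  E_mem : ∀ m x, x ∈ G m → E x ∈ G (m + 1)
  F_mem : ∀ m x, x ∈ G m → Fo x ∈ G (m - 1)
  rel : ∀ m x, x ∈ G m → E (Fo x) - Fo (E x) = ((2 * m - e : ℤ) : F) • x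
  low : ∃ N : ℤ, ∀ m < N, G m = ⊥
  high : ∃ N : ℤ, ∀ m > N, G m = ⊥

namespace IsSl2

variable {E Fo : V →ₗ[F] V} {G : ℤ → Submodule F V} {e : ℤ}

omit [CharZero F] in
lemma E_pow_mem (h : IsSl2 E Fo G e) (r : ℕ) {m : ℤ} {x : V} (hx : x ∈ G m) :
    (E ^ r) x ∈ G (m + r) := by
  induction r with
  | zero => simpa using hx
  | succ r ih =>
    rw [pow_succ', Module.End.mul_apply]
    have := h.E_mem _ _ ih
    have e1 : m + (r : ℤ) + 1 = m + ((r + 1 : ℕ) : ℤ) := by push_cast; ring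
    rwa [e1] at this

omit [CharZero F] in
lemma F_pow_mem (h : IsSl2 E Fo G e) (r : ℕ) {m : ℤ} {x : V} (hx : x ∈ G m) :
    (Fo ^ r) x ∈ G (m - r) := by
  induction r with
  | zero => simpa using hx
  | succ r ih =>
    rw [pow_succ', Module.End.mul_apply]
    have := h.F_mem _ _ ih
    have e1 : m - (r : ℤ) - 1 = m - ((r + 1 : ℕ) : ℤ) := by push_cast; ring
    rwa [e1] at this

omit [CharZero F] in
/-- The commutator of `E ^ (N + 1)` and `Fo`. -/
lemma E_pow_F (h : IsSl2 E Fo G e) (N : ℕ) {m : ℤ} {x : V} (hx : x ∈ G m) :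
    (E ^ (N + 1)) (Fo x) = Fo ((E ^ (N + 1)) x) +
      (((N + 1) * (2 * m - e + N) : ℤ) : F) • (E ^ N) x := by
  induction N with
  | zero =>
    have := h.rel m x hx
    rw [sub_eq_iff_eq_add] at this
    simp only [zero_add, pow_one, pow_zero, Module.End.one_apply]
    rw [this]
    push_cast
    rw [add_comm]
    congr 2
    ring
  | succ N ih =>
    have h1 : (E ^ (N + 1)) x ∈ G (m + (N + 1 : ℕ)) := h.E_pow_mem _ hx
    have h2 := h.rel _ _ h1
    rw [sub_eq_iff_eq_add] at h2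
    have h3 : (E ^ (N + 1 + 1)) (Fo x) = E ((E ^ (N + 1)) (Fo x)) := by
      rw [pow_succ', Module.End.mul_apply]
    have h4 : E ((E ^ N) x) = (E ^ (N + 1)) x := by
      rw [pow_succ', Module.End.mul_apply]
    have h5 : (E ^ (N + 1 + 1)) x = E ((E ^ (N + 1)) x) := by
      rw [pow_succ' E (N + 1), Module.End.mul_apply]
    rw [h3, ih, map_add, map_smul, h4, h2, h5]
    have h6 : ((2 * (m + ((N + 1 : ℕ) : ℤ)) - e : ℤ) : F) • (E ^ (N + 1)) x +
        (((N + 1) * (2 * m - e + N) : ℤ) : F) • (E ^ (N + 1)) x =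
        (((((N + 1 : ℕ) : ℤ) + 1) * (2 * m - e + ((N + 1 : ℕ) : ℤ)) : ℤ) : F) •
          (E ^ (N + 1)) x := by
      rw [← add_smul]
      congr 1
      push_cast
      ring
    rw [← h6]
    abel

omit [CharZero F] in
lemma E_nilp (h : IsSl2 E Fo G e) {m : ℤ} {x : V} (hx : x ∈ G m) : ∃ n : ℕ, (E ^ n) x = 0 := by
  obtain ⟨N, hN⟩ := h.high
  refine ⟨(N - m + 1).toNat, ?_⟩
  have h1 := h.E_pow_mem (N - m + 1).toNat hx
  rw [hN _ (by have := Int.self_le_toNat (N - m + 1); omega)] at h1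
  exact (Submodule.mem_bot _).1 h1

omit [CharZero F] in
lemma F_nilp (h : IsSl2 E Fo G e) {m : ℤ} {x : V} (hx : x ∈ G m) : ∃ n : ℕ, (Fo ^ n) x = 0 := by
  obtain ⟨N, hN⟩ := h.low
  refine ⟨(m - N + 1).toNat, ?_⟩
  have h1 := h.F_pow_mem (m - N + 1).toNat hx
  rw [hN _ (by have := Int.self_le_toNat (m - N + 1); omega)] at h1
  exact (Submodule.mem_bot _).1 h1

/-- For a vector `x` of weight `≥ r` with `E ^ (n + 1) x = 0`. -/
lemma E_pow_F_pow (h : IsSl2 E Fo G e) (n : ℕ) {m : ℤ} {x : V} (hx : x ∈ G m)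
    (h0 : (E ^ (n + 1)) x = 0) (r : ℕ) (hr : (r : ℤ) ≤ 2 * m - e) :
    (E ^ (n + r + 1)) ((Fo ^ r) x) = 0 ∧
      ∃ c : F, c ≠ 0 ∧ (E ^ (n + r)) ((Fo ^ r) x) = c • (E ^ n) x := by
  induction r with
  | zero => exact ⟨by simpa using h0, 1, one_ne_zero, by simp⟩
  | succ r ih =>
    obtain ⟨ih1, c, hc, ih2⟩ := ih (by push_cast at hr; omega)
    have hm := h.F_pow_mem r hx
    have e0 : (Fo ^ (r + 1)) x = Fo ((Fo ^ r) x) := by rw [pow_succ', Module.End.mul_apply]
    have h1 := h.E_pow_F (n + r) hm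
    have h2 := h.E_pow_F (n + r + 1) hm
    rw [ih1, map_zero, zero_add] at h1
    have h3 : (E ^ (n + r + 1 + 1)) ((Fo ^ r) x) = 0 := by
      rw [pow_succ' E (n + r + 1), Module.End.mul_apply, ih1, map_zero]
    rw [h3, map_zero, ih1, smul_zero, add_zero] at h2
    have e1 : n + (r + 1) = n + r + 1 := by ring
    refine ⟨by rw [e0]; exact h2, (((((n + r : ℕ) : ℤ) + 1) * (2 * (m - r) - e + (n + r : ℕ)) : ℤ) : F) * c, ?_, ?_⟩
    · refine mul_ne_zero ?_ hc
      rw [Int.cast_ne_zero]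
      apply mul_ne_zero
      · positivity
      · push_cast at hr ⊢
        omega
    · rw [e0, e1, h1, ih2, smul_smul]

/-- Surjectivity of `E ^ r` on a stable subspace, in weights `≥ r`. -/
theorem surj (h : IsSl2 E Fo G e) (A : Submodule F V) (hE : ∀ x ∈ A, E x ∈ A)
    (hF : ∀ x ∈ A, Fo x ∈ A) (r : ℕ) {m : ℤ} (hr : (r : ℤ) ≤ 2 * m - e) {x : V} (hx : x ∈ G m)
    (hxA : x ∈ A) : ∃ y ∈ G (m - r), y ∈ A ∧ (E ^ r) y = x := by
  have hEp : ∀ (s : ℕ) (y : V), y ∈ A → (E ^ s) y ∈ A := by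
    intro s y hy
    induction s with
    | zero => simpa using hy
    | succ s ih => rw [pow_succ', Module.End.mul_apply]; exact hE _ ih
  have hFp : ∀ (s : ℕ) (y : V), y ∈ A → (Fo ^ s) y ∈ A := by
    intro s y hy
    induction s with
    | zero => simpa using hy
    | succ s ih => rw [pow_succ', Module.End.mul_apply]; exact hF _ ih
  obtain ⟨n, hn⟩ := h.E_nilp hx
  induction n generalizing x with
  | zero =>
    have : x = 0 := by simpa using hn
    exact ⟨0, Submodule.zero_mem _, Submodule.zero_mem _, by rw [map_zero, this]⟩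
  | succ n ih =>
    obtain ⟨-, c, hc, h1⟩ := h.E_pow_F_pow n hx hn r hr
    have h2 : (E ^ r) ((Fo ^ r) x) ∈ G m := by
      have := h.E_pow_mem r (h.F_pow_mem r hx)
      rwa [sub_add_cancel] at this
    obtain ⟨y, hy, hyA, hy2⟩ := ih (x := x - c⁻¹ • (E ^ r) ((Fo ^ r) x))
      (Submodule.sub_mem _ hx (Submodule.smul_mem _ _ h2))
      (Submodule.sub_mem _ hxA (Submodule.smul_mem _ _ (hEp r _ (hFp r _ hxA))))
      (by
        rw [map_sub, map_smul, ← Module.End.mul_apply, ← pow_add, h1, smul_smul,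
          inv_mul_cancel₀ hc, one_smul, sub_self])
    refine ⟨y + c⁻¹ • (Fo ^ r) x, Submodule.add_mem _ hy (Submodule.smul_mem _ _
      (h.F_pow_mem r hx)), Submodule.add_mem _ hyA (Submodule.smul_mem _ _ (hFp r _ hxA)), ?_⟩
    rw [map_add, map_smul, hy2]
    abel

/-- Injectivity of `E ^ r` in weights `≤ -r`. -/
theorem inj (h : IsSl2 E Fo G e) (r : ℕ) {m : ℤ} (hr : 2 * m - e ≤ -(r : ℤ)) {x : V}
    (hx : x ∈ G m) (h0 : (E ^ r) x = 0) : x = 0 := by
  obtain ⟨n, hn⟩ := h.F_nilp hx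
  induction n generalizing x m r with
  | zero => simpa using hn
  | succ n ih =>
    have h1 := h.E_pow_F r hx
    have h2 : (E ^ (r + 1)) x = 0 := by
      rw [pow_succ', Module.End.mul_apply, h0, map_zero]
    rw [h2, h0, map_zero, smul_zero, add_zero] at h1
    have hF0 : Fo x = 0 := by
      apply ih (r + 1) (m := m - 1) (by push_cast; omega) (h.F_mem _ _ hx) h1
      rw [← Module.End.mul_apply, ← pow_succ]
      exact hn
    clear ih hn h1 h2
    induction r with
    | zero => simpa using h0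
    | succ r ih =>
      apply ih (by push_cast at hr; omega)
      have h3 := h.E_pow_F r hx
      rw [h0, hF0, map_zero, map_zero, zero_add] at h3
      refine (smul_eq_zero.1 h3.symm).resolve_left ?_
      rw [← ne_eq, Int.cast_ne_zero]
      apply mul_ne_zero
      · positivity
      · push_cast at hr ⊢
        omega

/-- Injectivity of `E ^ r` modulo a stable subspace. -/
theorem inj_mod (h : IsSl2 E Fo G e) (A : Submodule F V) (hE : ∀ x ∈ A, E x ∈ A)
    (hF : ∀ x ∈ A, Fo x ∈ A) (r : ℕ) {m : ℤ} (hr : 2 * m - e ≤ -(r : ℤ)) {x : V} (hx : x ∈ G m)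
    (h0 : (E ^ r) x ∈ A) : x ∈ A := by
  obtain ⟨s, hs⟩ := Int.eq_ofNat_of_zero_le (a := e - 2 * m) (by omega)
  have hrs : r ≤ s := by omega
  have h1 : (E ^ s) x ∈ A := by
    obtain ⟨t, rfl⟩ := Nat.exists_eq_add_of_le hrs
    rw [add_comm, pow_add, Module.End.mul_apply]
    generalize (E ^ r) x = y at h0
    clear hs hrs
    induction t with
    | zero => simpa using h0
    | succ t ih => rw [pow_succ', Module.End.mul_apply]; exact hE _ ih
  obtain ⟨y, hy, hyA, hy2⟩ := h.surj A hE hF s (m := m + s) (by omega) (h.E_pow_mem s hx) h1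
  rw [add_sub_cancel_right] at hy
  have h2 : x - y = 0 := by
    apply h.inj s (m := m) (by omega) (Submodule.sub_mem _ hx hy)
    rw [map_sub, hy2, sub_self]
  rw [sub_eq_zero.1 h2]
  exact hyA

end IsSl2

end Pool.Agent.Y148.OP
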