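import Pool.Agent.Y148.OP.Defs
import Pool.Agent.Y148.OP.Sl2
import Pool.Agent.Y148.KL.Lef

/-!
# The Lefschetz operators on cycles, on homologically trivial cycles and on the cohomology
-/

open CategoryTheory AlgebraicGeometry

universe u v w w'

namespace Pool.Agent.Y148.OP

open Pool.Agent.H914 Pool.Agent.H914.VarClass Pool.Agent.H914.VarClass.Obj Pool.Agent.W492.BB
  Pool.Agent.W550.Corr Pool.Agent.TH133 Pool.Agent.Y148.BB

set_option linter.unusedSectionVars false
set_option linter.unusedVariables false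

variable {k : Type u} [Field k] {𝒱 : VarClass k} {D : TheoryData.{u, w', 0} 𝒱 ℚ}
  [hD : IsChowProj D] {K : Type w} [Field K]
  {H : WeilTheoryData.{u, w', w} D K} [hH : IsWeilProj H] {X Y Z W : 𝒱.Obj}

include hD hH

variable (H)

lemma charZero (X : 𝒱.Obj) : CharZero K := by
  have h1 : (1 : H.A X) ≠ 0 := hH.one_ne_zero X
  refine charZero_of_inj_zero fun n hn => ?_
  by_contra h0
  have h2 : (n : H.A X) = 0 := by
    have : (n : H.A X) = algebraMap K (H.A X) (n : K) := (map_natCast _ n).symm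
    rw [this, hn, map_zero]
  have h3 : ((n : ℚ)⁻¹ • (1 : D.A X)) * (n : D.A X) = 1 := by
    have h4 : (n : D.A X) = (n : ℚ) • (1 : D.A X) := by rw [Nat.cast_smul_eq_nsmul, nsmul_one]
    rw [smul_mul_assoc, one_mul, h4, smul_smul, inv_mul_cancel₀ (by exact_mod_cast h0), one_smul]
  apply h1
  rw [← map_one H.cl, ← h3, map_mul, map_natCast, h2, mul_zero]

/-- The homologically trivial elements. -/
noncomputable def homTriv (X : 𝒱.Obj) : Submodule ℚ (D.A X) where
  carrier := {y | H.cl y = 0}
  zero_mem' := map_zero H.cl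
  add_mem' {a b} ha hb := by
    change H.cl (a + b) = 0
    have ha' : H.cl a = 0 := ha
    have hb' : H.cl b = 0 := hb
    rw [map_add, ha', hb', add_zero]
  smul_mem' q y hy := by
    change H.cl (q • y) = 0
    have hy' : H.cl y = 0 := hy
    rw [Pool.Agent.Y148.KL.cl_smul_one H, hy', mul_zero]

lemma mem_homTriv {y : D.A X} : y ∈ homTriv H X ↔ H.cl y = 0 := Iff.rfl

lemma cl_act' (Γ : D.A (X.prod Y)) (a : D.A X) : H.cl (D.act Γ a) = H.act (H.cl Γ) (H.cl a) := by
  rw [TheoryData.act_apply, TheoryData.act_apply, H.cl_push, map_mul, H.cl_pull]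

lemma cl_zsmul (n : ℤ) (z : D.A X) : H.cl (n • z) = ((n : ℤ) : K) • H.cl z := by
  rw [map_zsmul, Int.cast_smul_eq_zsmul]

lemma act_smulK (q : K) (Γ : H.A (X.prod Y)) (a : H.A X) : H.act (q • Γ) a = q • H.act Γ a := by
  rw [TheoryData.act_apply, TheoryData.act_apply, smul_mul_assoc, map_smul]

variable {H}

lemma cl_ext (a : H.A X) (b : H.A Y) (v : D.A X) :
    H.cl (D.pull (fst X Y) v) * H.ext a b = H.ext (H.cl v * a) b := by
  rw [TheoryData.ext, TheoryData.ext, H.cl_pull, map_mul, mul_assoc]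

lemma cl_ext' (a : H.A X) (b : H.A Y) (v : D.A Y) :
    H.cl (D.pull (snd X Y) v) * H.ext a b = H.ext a (H.cl v * b) := by
  rw [TheoryData.ext, TheoryData.ext, ← mul_assoc, H.cl_central, mul_assoc, H.cl_pull, map_mul]

omit hD hH in
lemma ext_sub_left (a a' : H.A X) (b : H.A Y) : H.ext (a - a') b = H.ext a b - H.ext a' b := by
  rw [TheoryData.ext, TheoryData.ext, TheoryData.ext, map_sub, sub_mul]

omit hD hH in
lemma ext_sub_right (a : H.A X) (b b' : H.A Y) : H.ext a (b - b') = H.ext a b - H.ext a b' := by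
  rw [TheoryData.ext, TheoryData.ext, TheoryData.ext, map_sub, mul_sub]

omit hD hH in
lemma ext_smul_left (q : K) (a : H.A X) (b : H.A Y) : H.ext (q • a) b = q • H.ext a b := by
  rw [TheoryData.ext, TheoryData.ext, map_smul, smul_mul_assoc]

omit hD hH in
lemma ext_smul_right (q : K) (a : H.A X) (b : H.A Y) : H.ext a (q • b) = q • H.ext a b := by
  rw [TheoryData.ext, TheoryData.ext, map_smul, mul_smul_comm]

/-- The operator `Λ` of the difference class on `X × X`. -/
lemma isLambda_tens {v : D.A X} (hv : v ∈ D.gr X 1) {l : D.A (X.prod X)} (hl : IsLambda H v l) :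
    IsLambda H (D.pull (fst X X) v - D.pull (snd X X) v)
      (tens D l (dg D X) - tens D (dg D X) l) := by
  obtain ⟨hm, hl⟩ := hl
  refine ⟨?_, fun i c hc => ?_⟩
  · have h1 := tens_mem D hm (dg_mem D X)
    have h2 := tens_mem D (dg_mem D X) hm
    have e1 : (X.dim : ℤ) - 1 + X.dim = ((X.prod X).dim : ℤ) - 1 := by
      rw [dim_prod]; push_cast; ring
    have e2 : (X.dim : ℤ) + ((X.dim : ℤ) - 1) = ((X.prod X).dim : ℤ) - 1 := by
      rw [dim_prod]; push_cast; ring
    rw [e1] at h1
    rw [e2] at h2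
    exact Submodule.sub_mem _ h1 h2
  · -- the two sides as linear maps
    have key : ∀ c ∈ Submodule.span K {c | ∃ (l : ℤ) (a : H.A X) (b : H.A X), a ∈ H.gr X l ∧
        b ∈ H.gr X (i - l) ∧ c = H.pull (fst X X) a * H.pull (snd X X) b},
        H.cl (D.pull (fst X X) v - D.pull (snd X X) v) *
          H.act (H.cl (tens D l (dg D X) - tens D (dg D X) l)) c -
        H.act (H.cl (tens D l (dg D X) - tens D (dg D X) l))
          (H.cl (D.pull (fst X X) v - D.pull (snd X X) v) * c) =
        ((i - (X.prod X).dim : ℤ) : K) • c := by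
      intro c hc
      induction hc using Submodule.span_induction with
      | mem c hc =>
        obtain ⟨j, a, b, ha, hb, rfl⟩ := hc
        have e0 : H.pull (fst X X) a * H.pull (snd X X) b = H.ext a b := rfl
        have hA : ∀ (a b : H.A X), H.act (H.cl (tens D l (dg D X) - tens D (dg D X) l))
            (H.ext a b) = H.ext (H.act (H.cl l) a) b - H.ext a (H.act (H.cl l) b) := by
          intro a b
          rw [map_sub H.cl, TheoryData.act_sub, actH_tens_ext, actH_tens_ext, actH_dg, actH_dg]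
        have hE : ∀ (a b : H.A X), H.cl (D.pull (fst X X) v - D.pull (snd X X) v) *
            H.ext a b = H.ext (H.cl v * a) b - H.ext a (H.cl v * b) := by
          intro a b
          rw [map_sub H.cl, sub_mul, cl_ext, cl_ext']
        have h1 := hl j a ha
        have h2 := hl (i - j) b hb
        have h1' : H.cl v * H.act (H.cl l) a = H.act (H.cl l) (H.cl v * a) +
            ((j - X.dim : ℤ) : K) • a := by
          rw [← h1]
          change _ = _ + (H.cl v * H.act (H.cl l) a - H.act (H.cl l) (H.cl v * a))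
          abel
        have h2' : H.cl v * H.act (H.cl l) b = H.act (H.cl l) (H.cl v * b) +
            ((i - j - X.dim : ℤ) : K) • b := by
          rw [← h2]
          change _ = _ + (H.cl v * H.act (H.cl l) b - H.act (H.cl l) (H.cl v * b))
          abel
        rw [e0, hA, hE, mul_sub, hE, hE]
        have h3 : ∀ x y : H.A (X.prod X),
            H.act (H.cl (tens D l (dg D X) - tens D (dg D X) l)) (x - y) =
            H.act (H.cl (tens D l (dg D X) - tens D (dg D X) l)) x -
            H.act (H.cl (tens D l (dg D X) - tens D (dg D X) l)) y := fun x y =>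
          map_sub (H.actL (H.cl (tens D l (dg D X) - tens D (dg D X) l))) x y
        rw [h3, hA, hA, h1', h2']
        have h4 : H.ext (H.act (H.cl l) (H.cl v * a) + ((j - X.dim : ℤ) : K) • a) b =
            H.ext (H.act (H.cl l) (H.cl v * a)) b + ((j - X.dim : ℤ) : K) • H.ext a b := by
          rw [TheoryData.ext, map_add, add_mul, map_smul, smul_mul_assoc]
          rfl
        have h5 : H.ext a (H.act (H.cl l) (H.cl v * b) + ((i - j - X.dim : ℤ) : K) • b) =
            H.ext a (H.act (H.cl l) (H.cl v * b)) + ((i - j - X.dim : ℤ) : K) • H.ext a b := by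
          rw [TheoryData.ext, map_add, mul_add, map_smul, mul_smul_comm]
          rfl
        rw [h4, h5]
        have h6 : ((i - (X.prod X).dim : ℤ) : K) • H.ext a b =
            ((j - X.dim : ℤ) : K) • H.ext a b + ((i - j - X.dim : ℤ) : K) • H.ext a b := by
          rw [← add_smul]
          congr 1
          rw [dim_prod]
          push_cast
          ring
        rw [h6]
        abel
      | zero => rw [TheoryData.act_map_zero, mul_zero, TheoryData.act_map_zero, smul_zero, sub_zero]
      | add x y _ _ hx hy =>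
        rw [act_map_add, mul_add, mul_add, act_map_add, smul_add, ← hx, ← hy]
        abel
      | smul r x _ hx =>
        rw [act_map_smul, mul_smul_comm, mul_smul_comm, act_map_smul, ← smul_sub, hx,
          smul_comm]
    exact key c (H.kunneth X X i hc)

/-- The weight on the homologically trivial elements. -/
lemma weight_hom (hJ : JacobianProperty H) {v : D.A Y} {l : D.A (Y.prod Y)}
    (hl : IsLambda H v l) {m : ℤ} {y : D.A Y} (hy : y ∈ D.gr Y m) (hy0 : H.cl y = 0) :
    v * D.act l y - D.act l (v * y) = ((2 * m - (Y.dim + 1) : ℤ) : ℚ) • y := by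
  have h1 := hJ Y Y (D.comp l (D.mulCorr v) - D.comp (D.mulCorr v) l -
    (2 * m - (Y.dim + 1) : ℤ) • dg D Y) m (fun a ha => by
      rw [map_sub H.cl, map_sub H.cl, TheoryData.act_sub, TheoryData.act_sub, actH_comp, actH_comp,
        Pool.Agent.Y148.KL.actH_mulCorr, Pool.Agent.Y148.KL.actH_mulCorr, cl_zsmul, act_smulK,
        actH_dg]
      have h2 := hl.2 _ a ha
      change H.cl v * H.act (H.cl l) a - H.act (H.cl l) (H.cl v * a) = _ at h2
      rw [h2, ← sub_smul]
      have e : ((2 * m - 1 - (Y.dim : ℤ) : ℤ) : K) - ((2 * m - ((Y.dim : ℤ) + 1) : ℤ) : K) = 0 := by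
        push_cast
        ring
      rw [e, zero_smul]) y hy hy0
  rw [TheoryData.act_sub, TheoryData.act_sub, D.act_comp, D.act_comp, D.act_mulCorr,
    D.act_mulCorr, sub_eq_zero] at h1
  rw [h1, TheoryData.act_apply, smul_mul_assoc, map_zsmul, Int.cast_smul_eq_zsmul]
  congr 1
  exact act_dg D y

omit hH in
lemma mul_deg_one {v : D.A Y} (hv : v ∈ D.gr Y 1) {m : ℤ} {y : D.A Y} (hy : y ∈ D.gr Y m) :
    v * y ∈ D.gr Y (m + 1) := by
  have h := D.mul_mem hv hy
  rwa [add_comm] at h

omit hH in
lemma act_lambda_mem {l : D.A (Y.prod Y)} (hl : l ∈ D.gr (Y.prod Y) (Y.dim - 1)) {m : ℤ}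
    {y : D.A Y} (hy : y ∈ D.gr Y m) : D.act l y ∈ D.gr Y (m - 1) :=
  act_mem' D (e := -1) (by rwa [← sub_eq_add_neg]) hy

/-- The operators on the homologically trivial elements. -/
lemma hom_sl2 (hJ : JacobianProperty H) {v : D.A Y} (hv : v ∈ D.gr Y 1) {l : D.A (Y.prod Y)}
    (hl : IsLambda H v l) : IsSl2 (LinearMap.mulLeft ℚ v) (D.actL l)
      (fun m => D.gr Y m ⊓ homTriv H Y) (Y.dim + 1) where
  E_mem m y hy := ⟨mul_deg_one hv hy.1, by
    have h0 : H.cl y = 0 := hy.2
    change H.cl (v * y) = 0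
    rw [map_mul, h0, mul_zero]⟩
  F_mem m y hy := ⟨act_lambda_mem hl.1 hy.1, by
    have h0 : H.cl y = 0 := hy.2
    change H.cl (D.act l y) = 0
    rw [cl_act', h0, TheoryData.act_map_zero]⟩
  rel m y hy := weight_hom hJ hl hy.1 hy.2
  low := ⟨0, fun m hm => by rw [D.gr_neg Y m hm, bot_inf_eq]⟩
  high := ⟨Y.dim, fun m hm => by
    rw [eq_bot_iff]
    intro y hy
    exact (Submodule.mem_bot _).2 (hD.gr_top Y m y hy.1 hm)⟩

/-- The operators on the cohomology. -/
lemma coh_sl2 {v : D.A Y} (hv : v ∈ D.gr Y 1) {l : D.A (Y.prod Y)}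
    (hl : IsLambda H v l) : IsSl2 (LinearMap.mulLeft K (H.cl v)) (H.actL (H.cl l))
      (fun m => H.gr Y (2 * m)) Y.dim where
  E_mem m y hy := by
    have h := H.mul_mem (H.cl_mem hv) hy
    have e1 : 2 * 1 + 2 * m = 2 * (m + 1) := by ring
    rw [e1] at h
    exact h
  F_mem m y hy := by
    have h := actH_mem H (e := -1) (by rw [← sub_eq_add_neg]; exact hl.1) hy
    have e1 : 2 * m + 2 * (-1) = 2 * (m - 1) := by ring
    rw [e1] at h
    exact h
  rel m y hy := hl.2 _ y hy
  low := ⟨0, fun m hm => H.gr_neg Y _ (by omega)⟩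
  high := ⟨Y.dim, fun m hm => TH133.gr_top H (by omega)⟩

/-- The operator `Λ` preserves homological triviality. -/
lemma homTriv_le_mulLeft (v : D.A Y) :
    homTriv H Y ≤ (homTriv H Y).comap (LinearMap.mulLeft ℚ v) := by
  intro y hy
  have h0 : H.cl y = 0 := hy
  change H.cl (v * y) = 0
  rw [map_mul, h0, mul_zero]

lemma homTriv_le_actL (l : D.A (Y.prod Y)) :
    homTriv H Y ≤ (homTriv H Y).comap (D.actL l) := by
  intro y hy
  have h0 : H.cl y = 0 := hy
  change H.cl (D.act l y) = 0
  rw [cl_act', h0, TheoryData.act_map_zero]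

/-- The operators on the classes. -/
lemma cls_sl2 {v : D.A Y} (hv : v ∈ D.gr Y 1) {l : D.A (Y.prod Y)}
    (hl : IsLambda H v l) : IsSl2
      ((homTriv H Y).mapQ (homTriv H Y) (LinearMap.mulLeft ℚ v) (homTriv_le_mulLeft v))
      ((homTriv H Y).mapQ (homTriv H Y) (D.actL l) (homTriv_le_actL l))
      (fun m => (D.gr Y m).map (homTriv H Y).mkQ) Y.dim where
  E_mem m y hy := by
    obtain ⟨x, hx, rfl⟩ := hy
    exact ⟨v * x, mul_deg_one hv hx, rfl⟩
  F_mem m y hy := by
    obtain ⟨x, hx, rfl⟩ := hy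
    exact ⟨D.act l x, act_lambda_mem hl.1 hx, rfl⟩
  rel m y hy := by
    obtain ⟨x, hx, rfl⟩ := hy
    have h1 : v * D.act l x - D.act l (v * x) - ((2 * m - Y.dim : ℤ) : ℚ) • x ∈ homTriv H Y := by
      change H.cl _ = 0
      rw [Int.cast_smul_eq_zsmul, map_sub, map_sub, cl_zsmul, map_mul, cl_act', cl_act', map_mul,
        sub_eq_zero]
      exact hl.2 _ _ (H.cl_mem hx)
    have h2 := (Submodule.Quotient.mk_eq_zero (homTriv H Y)).2 h1
    have h3 : (homTriv H Y).mkQ (v * D.act l x - D.act l (v * x) -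
      ((2 * m - Y.dim : ℤ) : ℚ) • x) = 0 := h2
    rw [map_sub, map_sub, map_smul, sub_eq_zero] at h3
    exact h3
  low := ⟨0, fun m hm => by rw [D.gr_neg Y m hm, Submodule.map_bot]⟩
  high := ⟨Y.dim, fun m hm => by
    rw [eq_bot_iff]
    rintro y ⟨x, hx, rfl⟩
    rw [Submodule.mem_bot, hD.gr_top Y m x hx hm, map_zero]⟩

end Pool.Agent.Y148.OP
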