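import Pool.Agent.TH133.Defs

/-!
# Deligne cohomology, the Lefschetz operator and punctured vector bundles: definitions

`C` is the theory of the Chow groups with rational coefficients of the smooth projective varieties
over the algebraic closure of the field of rational numbers, `D` the theory of the Deligne
cohomology groups `D^k(X) = H^{2k}_D(X(ℂ), ℚ(k))`, `H` the cohomology `H(X(ℂ))`.
-/

open CategoryTheory AlgebraicGeometry

universe u v w w'

namespace Pool.Agent.Y148.OP

open Pool.Agent.H914 Pool.Agent.H914.VarClass Pool.Agent.H914.VarClass.Obj Pool.Agent.W492.BB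

variable {k : Type u} [Field k] {𝒱 : VarClass k}

/-- A homomorphism of theories: homomorphisms of rings `C(X) → D(X)` which preserve the degrees and
commute with pull-backs and push-forwards (the cycle map from the Chow groups to the Deligne
cohomology). -/
structure TheoryHom (C : TheoryData.{u, v, 0} 𝒱 ℚ) (D : TheoryData.{u, w', 0} 𝒱 ℚ) where
  /-- the homomorphism for the variety `X` -/
  map : ∀ X : 𝒱.Obj, C.A X →ₐ[ℚ] D.A X
  deg : ∀ {X : 𝒱.Obj} {i : ℤ} {x : C.A X}, C.Deg i x → D.Deg i (map X x)
  pull : ∀ {X Y : 𝒱.Obj} (f : X ⟶ Y) (y : C.A Y), map X (C.up f y) = D.up f (map Y y)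
  push : ∀ {X Y : 𝒱.Obj} (f : X ⟶ Y) (x : C.A X), map Y (C.down f x) = D.down f (map X x)

/-- The elements of `D^k(Y)` with class zero in `H^{2k}(Y)` form a group `J^k(Y)` which depends only
on `H^{2k-1}(Y)` (it is an intermediate Jacobian): a correspondence `γ` that acts as zero on
`H^{2k-1}(Y)` acts as zero on `J^k(Y)`. -/
def JacobianProperty {D : TheoryData.{u, w', 0} 𝒱 ℚ} {K : Type w} [Field K]
    (H : WeilTheoryData.{u, w', w} D K) : Prop :=
  ∀ (Y Z : 𝒱.Obj) (γ : D.A (Y.prod Z)) (m : ℤ),
    (∀ a : H.A Y, H.Deg (2 * m - 1) a → H.act (H.cl γ) a = 0) →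
      ∀ j : D.A Y, D.Deg m j → H.cl j = 0 → D.act γ j = 0

/-- The element `l` of `D^{d-1}(X × X)`, `d = dim X`, induces the operator `Λ` of the divisor class
`v`: the commutator of the multiplication by `v` and of `Λ` is the multiplication by `i - d` on
`H^i(X)`. -/
def IsLambda {D : TheoryData.{u, w', 0} 𝒱 ℚ} {K : Type w} [Field K]
    (H : WeilTheoryData.{u, w', w} D K) {X : 𝒱.Obj} (v : D.A X) (l : D.A (X.prod X)) : Prop :=
  D.Deg (X.dim - 1) l ∧ ∀ (i : ℤ) (a : H.A X), H.Deg i a →
    H.mul (H.cl v) (H.act (H.cl l) a) - H.act (H.cl l) (H.mul (H.cl v) a) =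
      ((i - X.dim : ℤ) : K) • a

variable {C : TheoryData.{u, v, 0} 𝒱 ℚ} {D : TheoryData.{u, w', 0} 𝒱 ℚ} (φ : TheoryHom C D)
  {K : Type w} [Field K] (H : WeilTheoryData.{u, w', w} D K)

/-- The divisor class `v` on `X` satisfies the hard Lefschetz theorem (compatible with the Hodge
structures): the operator `Λ` exists and is induced by an element of the Deligne cohomology. -/
def HardLefschetz {X : 𝒱.Obj} (v : C.A X) : Prop :=
  C.Deg 1 v ∧ ∃ l, IsLambda H (φ.map X v) l

/-- The Lefschetz standard conjecture for `X` and `v`: the operator `Λ` is induced by an algebraic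
cycle. -/
def StandardB {X : 𝒱.Obj} (v : C.A X) : Prop :=
  ∃ l : C.A (X.prod X), C.Deg (X.dim - 1) l ∧ IsLambda H (φ.map X v) (φ.map _ l)

/-- The rational Abel-Jacobi map is injective on the homologically trivial cycles of
codimension `m` on the projective variety `Y`. -/
def InjectiveProjective (Y : 𝒱.Obj) (m : ℤ) : Prop :=
  ∀ y : C.A Y, C.Deg m y → φ.map Y y = 0 → y = 0

/-- The class of `y` in the Chow group of `V` is mapped to zero in the Deligne cohomology of `V`,
where `V` is the complement of the zero section in `N ⊕ ⋯ ⊕ N` (`r` summands), `N` a line bundle on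
`Y` with the class `v`, `y ∈ CH^m(Y)`: the image of `y` is the product of `v ^ r` and an element of
`D^{m-r}(Y)`. -/
def KilledBy {Y : 𝒱.Obj} (v : C.A Y) (r : ℕ) (m : ℤ) (y : C.A Y) : Prop :=
  ∃ b : D.A Y, D.Deg (m - r) b ∧ φ.map Y y = D.mul (φ.map Y v ^ r) b

/-- The class of `y ∈ CH^m(Y)` in the Chow group of `V` (as above) is zero: `y` is the product of
`v ^ r` and an element of `CH^{m-r}(Y)`. -/
def IsZeroOn {Y : 𝒱.Obj} (v : C.A Y) (r : ℕ) (m : ℤ) (y : C.A Y) : Prop :=
  ∃ z : C.A Y, C.Deg (m - r) z ∧ y = C.mul (v ^ r) z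

/-- The rational Abel-Jacobi map is injective on the homologically trivial cycles of codimension `m`
on the quasi-projective variety `V`, the complement of the zero section in `N ⊕ ⋯ ⊕ N` (`r`
summands), `N` a line bundle on `Y` with the class `v`. -/
def InjectivePunctured {Y : 𝒱.Obj} (v : C.A Y) (r : ℕ) (m : ℤ) : Prop :=
  ∀ y : C.A Y, C.Deg m y → KilledBy φ v r m y → IsZeroOn v r m y

/-- The class `Δ_* v` on `X × X`. -/
noncomputable def diagonalClass {X : 𝒱.Obj} (v : C.A X) : C.A (X.prod X) :=
  C.down (Obj.lift (𝟙 X) (𝟙 X)) v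

/-- The class `v × X - X × v` on `X × X`. -/
noncomputable def difference {X : 𝒱.Obj} (v : C.A X) : C.A (X.prod X) :=
  C.up (fst X X) v - C.up (snd X X) v

/-- The Abel-Jacobi image of the class of `Δ_* v` on the complement of the zero section in `N ⊕ N`,
`N` the line bundle on `X × X` with the class `v × X - X × v`, is zero. -/
def XiKilled {X : 𝒱.Obj} (v : C.A X) : Prop :=
  KilledBy φ (difference v) 2 (X.dim + 1) (diagonalClass v)

/-- The class of `Δ_* v` on the complement of the zero section in `N ⊕ N` is zero. -/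
def XiZero {X : 𝒱.Obj} (v : C.A X) : Prop :=
  IsZeroOn (difference v) 2 (X.dim + 1) (diagonalClass v)

end Pool.Agent.Y148.OP
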