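import Pool.Agent.Y148.OP.Triple

/-!
# The Abel-Jacobi map on punctured vector bundles and the Lefschetz standard conjecture
-/

open CategoryTheory AlgebraicGeometry

universe u v w w'

namespace Pool.Agent.Y148.OP

open Pool.Agent.H914 Pool.Agent.H914.VarClass Pool.Agent.H914.VarClass.Obj Pool.Agent.W492.BB
  Pool.Agent.W550.Corr Pool.Agent.TH133 Pool.Agent.Y148.BB

set_option linter.unusedSectionVars false
set_option linter.unusedVariables false

variable {k : Type u} [Field k] {𝒱 : VarClass k} {C : TheoryData.{u, v, 0} 𝒱 ℚ}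
  [hC : IsChowProj C] {D : TheoryData.{u, w', 0} 𝒱 ℚ} [hD : IsChowProj D]
  {φ : TheoryHom C D} {K : Type w} [Field K]
  {H : WeilTheoryData.{u, w', w} D K} [hH : IsWeilProj H] {X Y Z W : 𝒱.Obj}

section hom

include hC hD

lemma map_act (Γ : C.A (X.prod Y)) (a : C.A X) :
    φ.map Y (C.act Γ a) = D.act (φ.map _ Γ) (φ.map X a) := by
  have h1 : φ.map Y (C.down (snd X Y) (Γ * C.up (fst X Y) a)) =
      D.down (snd X Y) (φ.map _ (Γ * C.up (fst X Y) a)) := φ.push _ _
  have h2 : φ.map (X.prod Y) (C.up (fst X Y) a) = D.up (fst X Y) (φ.map X a) := φ.pull _ _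
  rw [map_mul, h2] at h1
  exact h1

lemma map_comp' (Γ : C.A (X.prod Y)) (Δ : C.A (Y.prod Z)) :
    φ.map _ (C.comp Γ Δ) = D.comp (φ.map _ Γ) (φ.map _ Δ) := by
  have h1 : φ.map _ (C.down (t13 X Y Z) (C.up (t23 X Y Z) Δ * C.up (fst (X.prod Y) Z) Γ)) =
      D.down (t13 X Y Z) (φ.map _ (C.up (t23 X Y Z) Δ * C.up (fst (X.prod Y) Z) Γ)) := φ.push _ _
  have h2 : φ.map _ (C.up (t23 X Y Z) Δ) = D.up (t23 X Y Z) (φ.map _ Δ) := φ.pull _ _
  have h3 : φ.map _ (C.up (fst (X.prod Y) Z) Γ) = D.up (fst (X.prod Y) Z) (φ.map _ Γ) :=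
    φ.pull _ _
  rw [map_mul, h2, h3] at h1
  exact h1

lemma map_tens (Γ : C.A (X.prod Y)) (Δ : C.A (Z.prod W)) :
    φ.map _ (tens C Γ Δ) = tens D (φ.map _ Γ) (φ.map _ Δ) := by
  have h2 : φ.map _ (C.up (prodMap (fst X Z) (fst Y W)) Γ) =
    D.up (prodMap (fst X Z) (fst Y W)) (φ.map _ Γ) := φ.pull _ _
  have h3 : φ.map _ (C.up (prodMap (snd X Z) (snd Y W)) Δ) =
    D.up (prodMap (snd X Z) (snd Y W)) (φ.map _ Δ) := φ.pull _ _
  rw [tens, tens, map_mul]
  exact congrArg₂ (· * ·) h2 h3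

lemma map_dg (X : 𝒱.Obj) : φ.map _ (dg C X) = dg D X := by
  have h1 : φ.map _ (C.down (Obj.lift (𝟙 X) (𝟙 X)) 1) =
    D.down (Obj.lift (𝟙 X) (𝟙 X)) (φ.map _ 1) := φ.push _ _
  rw [map_one] at h1
  exact h1

lemma map_difference (v : C.A X) : φ.map _ (difference v) =
    D.pull (fst X X) (φ.map X v) - D.pull (snd X X) (φ.map X v) := by
  have h2 : φ.map _ (C.up (fst X X) v) = D.up (fst X X) (φ.map _ v) := φ.pull _ _
  have h3 : φ.map _ (C.up (snd X X) v) = D.up (snd X X) (φ.map _ v) := φ.pull _ _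
  rw [difference, map_sub, h2, h3]

lemma map_diagonal (v : C.A X) : φ.map _ (diagonalClass v) = D.mulCorr (φ.map X v) :=
  φ.push _ _

omit hD in
lemma difference_mem {v : C.A X} (hv : v ∈ C.gr X 1) : difference v ∈ C.gr (X.prod X) 1 :=
  Submodule.sub_mem _ (C.pull_mem _ hv) (C.pull_mem _ hv)

omit hD in
lemma diagonal_mem {v : C.A X} (hv : v ∈ C.gr X 1) :
    diagonalClass v ∈ C.gr (X.prod X) (X.dim + 1) := by
  have h := C.push_mem (Obj.lift (𝟙 X) (𝟙 X)) hv
  have e1 : (1 : ℤ) + 1 * (((X.prod X).dim : ℤ) - (X.dim : ℤ)) = X.dim + 1 := by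
    rw [dim_prod]; push_cast; ring
  rw [e1] at h
  exact h

omit hD in
lemma pow_mul_mem {v : C.A X} (hv : v ∈ C.gr X 1) (r : ℕ) {m : ℤ} {z : C.A X}
    (hz : z ∈ C.gr X m) : v ^ r * z ∈ C.gr X (m + r) := by
  induction r with
  | zero => simpa using hz
  | succ r ih =>
    have h1 := C.mul_mem hv ih
    have e1 : 1 + (m + (r : ℤ)) = m + ((r + 1 : ℕ) : ℤ) := by push_cast; ring
    rw [e1] at h1
    rw [pow_succ', mul_assoc]
    exact h1

end hom

include hC hD hH

lemma HardLefschetz.difference {v : C.A X} (h : HardLefschetz φ H v) :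
    HardLefschetz φ H (difference v) := by
  obtain ⟨hv, l, hl⟩ := h
  refine ⟨difference_mem (C := C) hv, tens D l (dg D X) - tens D (dg D X) l, ?_⟩
  rw [map_difference]
  exact isLambda_tens (φ.deg hv) hl

lemma StandardB.difference {v : C.A X} (hv : C.Deg 1 v) (h : StandardB φ H v) :
    StandardB φ H (difference v) := by
  obtain ⟨l, hlm, hl⟩ := h
  refine ⟨tens C l (dg C X) - tens C (dg C X) l, ?_, ?_⟩
  · have h1 := tens_mem C hlm (dg_mem C X)
    have h2 := tens_mem C (dg_mem C X) hlm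
    have e1 : (X.dim : ℤ) - 1 + X.dim = ((X.prod X).dim : ℤ) - 1 := by
      rw [dim_prod]; push_cast; ring
    have e2 : (X.dim : ℤ) + ((X.dim : ℤ) - 1) = ((X.prod X).dim : ℤ) - 1 := by
      rw [dim_prod]; push_cast; ring
    rw [e1] at h1
    rw [e2] at h2
    exact Submodule.sub_mem _ h1 h2
  · rw [map_difference, map_sub, map_tens, map_tens, map_dg]
    exact isLambda_tens (φ.deg hv) hl

/-- A homogeneous algebraic element is the image of a homogeneous element. -/
lemma exists_homogeneous {z : C.A X} {m : ℤ} (h : φ.map X z ∈ D.gr X m) :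
    ∃ z' ∈ C.gr X m, φ.map X z' = φ.map X z := by
  have h1 : z ∈ ⨆ i, C.gr X i := by
    rw [(C.isInternal X).submodule_iSup_eq_top]; trivial
  rw [iSup_split_single _ m] at h1
  obtain ⟨z1, hz1, z2, hz2, rfl⟩ := Submodule.mem_sup.1 h1
  have h2 : φ.map X z2 ∈ ⨆ i, ⨆ (_ : i ≠ m), D.gr X i := by
    have h3 : (⨆ i, ⨆ (_ : i ≠ m), C.gr X i) ≤
        (⨆ i, ⨆ (_ : i ≠ m), D.gr X i).comap (φ.map X).toLinearMap := by
      refine iSup₂_le fun i hi => ?_
      intro x hx
      exact (le_iSup₂ (f := fun i (_ : i ≠ m) => D.gr X i) i hi) (φ.deg hx)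
    exact h3 hz2
  have h4 : φ.map X z2 ∈ D.gr X m := by
    have h5 : φ.map X z2 = φ.map X (z1 + z2) - φ.map X z1 := by rw [map_add]; abel
    rw [h5]
    exact Submodule.sub_mem _ h (φ.deg hz1)
  have h6 := Submodule.disjoint_def.1 ((D.isInternal X).submodule_iSupIndep m) _ h4 h2
  exact ⟨z1, hz1, by rw [map_add, h6, add_zero]⟩

/-- The space of algebraic elements. -/
noncomputable def algS (φ : TheoryHom C D) (X : 𝒱.Obj) : Submodule ℚ (D.A X) :=
  LinearMap.range (φ.map X).toLinearMap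

/-- The Abel-Jacobi image of the class of `Δ_* v` is zero. -/
theorem xi_killed (hJ : JacobianProperty H) {v : C.A X} (hv : HardLefschetz φ H v) :
    XiKilled φ v := by
  obtain ⟨hv1, l, hl⟩ := hv
  have hv' : φ.map X v ∈ D.gr X 1 := φ.deg hv1
  have hs := hom_sl2 hJ (Submodule.sub_mem _ (D.pull_mem (fst X X) hv')
    (D.pull_mem (snd X X) hv')) (isLambda_tens hv' hl)
  obtain ⟨b, -, hb, hb2⟩ := exists_triple hJ hv' hl ⊤ (fun _ _ _ _ => trivial) trivial trivial
    (fun j _ hj hj0 => by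
      obtain ⟨j', hj', -, h⟩ := hs.surj ⊤ (fun _ _ => trivial) (fun _ _ => trivial) 1
        (m := X.dim + 1) (by rw [dim_prod]; push_cast; omega) (x := j) ⟨hj, hj0⟩ trivial
      rw [pow_one] at h
      have e1 : ((X.dim : ℤ) + 1) - (1 : ℕ) = X.dim := by push_cast; ring
      rw [e1] at hj'
      exact ⟨j', trivial, hj'.1, hj'.2, h.symm⟩)
  refine ⟨b, ?_, ?_⟩
  · have e1 : (X.dim : ℤ) + 1 - (2 : ℕ) = X.dim - 1 := by push_cast; ring
    rw [e1]
    exact hb
  · rw [map_diagonal, map_difference]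
    exact hb2

/-- If the class of `Δ_* v` is zero, then the operator `Λ` is algebraic. -/
theorem standardB_of_xi {v : C.A X} (hv : HardLefschetz φ H v)
    (hx : XiZero v) : StandardB φ H v := by
  have hcz : CharZero K := charZero H X
  obtain ⟨hv1, l, hl⟩ := hv
  have hv' : φ.map X v ∈ D.gr X 1 := φ.deg hv1
  obtain ⟨z, hz, hzv⟩ := hx
  have e0 : (X.dim : ℤ) + 1 - (2 : ℕ) = X.dim - 1 := by push_cast; ring
  have hz' : z ∈ C.gr (X.prod X) (X.dim - 1) := by
    have : z ∈ C.gr (X.prod X) (X.dim + 1 - (2 : ℕ)) := hz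
    rwa [e0] at this
  have hz2 : (-(2 : ℤ)) • z ∈ C.gr (X.prod X) (X.dim - 1) := zsmul_mem hz' _
  refine ⟨(-(2 : ℤ)) • z, hz2, ?_⟩
  -- the difference class
  set δ : D.A (X.prod X) := D.pull (fst X X) (φ.map X v) - D.pull (snd X X) (φ.map X v) with hδ
  have hδm : δ ∈ D.gr (X.prod X) 1 := Submodule.sub_mem _ (D.pull_mem (fst X X) hv')
    (D.pull_mem (snd X X) hv')
  have hs := coh_sl2 (H := H) hδm (isLambda_tens hv' hl)
  have h1 : φ.map _ (diagonalClass v) = φ.map _ (difference v ^ 2 * z) := congrArg _ hzv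
  rw [map_diagonal, map_mul, map_pow, map_difference] at h1
  -- the double commutator with the given operator
  have h2 : H.cl (δ * (δ * l)) = H.cl (-(2 : ℤ) • D.mulCorr (φ.map X v)) := by
    rw [← sub_eq_zero, ← map_sub]
    apply hom_zero_of_act H
    intro a
    have h3 : H.actL (H.cl (δ * (δ * l) - -(2 : ℤ) • D.mulCorr (φ.map X v))) = 0 := by
      apply ext_gr H
      intro i a ha
      have hva := H.mul_mem (H.cl_mem hv') ha
      have hcl : ∀ (w : D.A (X.prod X)) (a : H.A X), H.act (H.cl (δ * w)) a =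
          H.act (H.cl w) (H.cl (φ.map X v) * a) - H.cl (φ.map X v) * H.act (H.cl w) a := by
        intro w a
        rw [hδ, difference_mul, map_sub H.cl, TheoryData.act_sub, actH_comp, actH_comp,
          Pool.Agent.Y148.KL.actH_mulCorr, Pool.Agent.Y148.KL.actH_mulCorr]
      have hd : ∀ (i : ℤ) (a : H.A X), a ∈ H.gr X i → H.act (H.cl (δ * l)) a =
          - (((i - X.dim : ℤ) : K) • a) := by
        intro i a ha
        rw [hcl, ← hl.2 i a ha]
        abel
      rw [TheoryData.actL_apply, LinearMap.zero_apply, map_sub H.cl, TheoryData.act_sub, hcl,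
        hd _ _ hva, hd _ _ ha, cl_zsmul, act_smulK, Pool.Agent.Y148.KL.actH_mulCorr, mul_neg,
        mul_smul_comm]
      have e : - (((2 * 1 + i - X.dim : ℤ) : K) • (H.cl (φ.map X v) * a)) -
          - (((i - X.dim : ℤ) : K) • (H.cl (φ.map X v) * a)) -
          ((-(2 : ℤ) : ℤ) : K) • (H.cl (φ.map X v) * a) =
          (- ((2 * 1 + i - X.dim : ℤ) : K) - - ((i - X.dim : ℤ) : K) - ((-(2 : ℤ) : ℤ) : K)) •
            (H.cl (φ.map X v) * a) := by
        rw [sub_smul, sub_smul, neg_smul, neg_smul]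
      rw [e]
      have e2 : (- ((2 * 1 + i - X.dim : ℤ) : K) - - ((i - X.dim : ℤ) : K) -
          ((-(2 : ℤ) : ℤ) : K)) = 0 := by
        push_cast
        ring
      rw [e2, zero_smul]
    exact LinearMap.congr_fun h3 a
  have h4 : H.cl (φ.map _ ((-(2 : ℤ)) • z)) - H.cl l = 0 := by
    apply hs.inj 2 (m := X.dim - 1) (by rw [dim_prod]; push_cast; omega)
    · apply Submodule.sub_mem
      · exact H.cl_mem (φ.deg hz2)
      · exact H.cl_mem hl.1
    · rw [pow_two, Module.End.mul_apply, LinearMap.mulLeft_apply, LinearMap.mulLeft_apply, mul_sub,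
        mul_sub, ← map_mul, ← map_mul, ← map_mul, ← map_mul, h2, sub_eq_zero, ← mul_assoc,
        ← pow_two, map_zsmul, mul_smul_comm, ← h1]
  have h5 := sub_eq_zero.1 h4
  refine ⟨φ.deg hz2, fun i a ha => ?_⟩
  rw [h5]
  exact hl.2 i a ha

/-- The class of `Δ_* v` is zero if `Λ` is algebraic and the Abel-Jacobi map is injective. -/
theorem xi_of_standardB (hJ : JacobianProperty H) {v : C.A X} (hv : C.Deg 1 v)
    (hB : StandardB φ H v) (hI : InjectiveProjective φ (X.prod X) (X.dim + 1)) : XiZero v := by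
  have hB' := hB.difference hv
  obtain ⟨l, hlm, hl⟩ := hB
  obtain ⟨l', hlm', hl'⟩ := hB'
  have hv' : φ.map X v ∈ D.gr X 1 := φ.deg hv
  have hδm : φ.map _ (difference v) ∈ D.gr (X.prod X) 1 := φ.deg (difference_mem (C := C) hv)
  have hs := hom_sl2 hJ hδm hl'
  obtain ⟨b, ⟨z, hz⟩, hb, hb2⟩ := exists_triple hJ hv' hl (algS φ (X.prod X))
    (by
      rintro _ ⟨a, rfl⟩ _ ⟨b, rfl⟩
      exact ⟨C.comp a b, map_comp' a b⟩)
    ⟨diagonalClass v, map_diagonal v⟩ ⟨l, rfl⟩
    (fun j hjS hj hj0 => by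
      obtain ⟨j', hj', hj'S, h⟩ := hs.surj (algS φ (X.prod X))
        (by
          rintro _ ⟨a, rfl⟩
          exact ⟨difference v * a, map_mul (φ.map _) _ _⟩)
        (by
          rintro _ ⟨a, rfl⟩
          exact ⟨C.act l' a, map_act l' a⟩) 1
        (m := X.dim + 1) (by rw [dim_prod]; push_cast; omega) (x := j) ⟨hj, hj0⟩ hjS
      rw [pow_one] at h
      have e1 : ((X.dim : ℤ) + 1) - (1 : ℕ) = X.dim := by push_cast; ring
      rw [e1] at hj'
      refine ⟨j', hj'S, hj'.1, hj'.2, ?_⟩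
      rw [← map_difference]
      exact h.symm)
  have hz0 : φ.map _ z = b := hz
  obtain ⟨z', hz', hzz'⟩ := exists_homogeneous (φ := φ) (H := H) (z := z) (m := X.dim - 1)
    (by rw [hz0]; exact hb)
  have e0 : (X.dim : ℤ) - 1 = X.dim + 1 - (2 : ℕ) := by push_cast; ring
  refine ⟨z', ?_, ?_⟩
  · rw [← e0]
    exact hz'
  · rw [← sub_eq_zero]
    apply hI
    · apply Submodule.sub_mem _ (diagonal_mem hv)
      have h1 := pow_mul_mem (difference_mem (C := C) hv) 2 hz'
      have e1 : (X.dim : ℤ) - 1 + (2 : ℕ) = X.dim + 1 := by push_cast; ring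
      rw [e1] at h1
      exact h1
    · have h1 : φ.map _ (difference v ^ 2 * z') = D.mulCorr (φ.map X v) := by
        rw [map_mul, hzz', hz0, map_pow, map_difference, hb2]
      rw [map_sub, map_diagonal]
      exact sub_eq_zero.2 h1.symm

omit hC hD hH

/-- The `r`-th power of the operator on the quotient. -/
lemma pow_mapQ_mk' {A : Type*} [Ring A] [Algebra ℚ A] (N : Submodule ℚ A) (v : A)
    (h : N ≤ N.comap (LinearMap.mulLeft ℚ v)) (r : ℕ) (x : A) :
    ((N.mapQ N (LinearMap.mulLeft ℚ v) h) ^ r) (N.mkQ x) = N.mkQ (v ^ r * x) := by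
  induction r with
  | zero => simp
  | succ r ih =>
    rw [pow_succ', Module.End.mul_apply, ih, pow_succ', mul_assoc]
    rfl

lemma mul_deg_one' [IsChowProj C] {v : C.A Y} (hv : v ∈ C.gr Y 1) {m : ℤ} {y : C.A Y}
    (hy : y ∈ C.gr Y m) : v * y ∈ C.gr Y (m + 1) := by
  have h := C.mul_mem hv hy
  rwa [add_comm] at h

lemma act_lambda_mem' [IsChowProj C] {l : C.A (Y.prod Y)} (hl : l ∈ C.gr (Y.prod Y) (Y.dim - 1))
    {m : ℤ} {y : C.A Y} (hy : y ∈ C.gr Y m) : C.act l y ∈ C.gr Y (m - 1) :=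
  act_mem' C (e := -1) (by rwa [← sub_eq_add_neg]) hy

end Pool.Agent.Y148.OP
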