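import Pool.Agent.Y148.OP.Main

/-!
# Injectivity on punctured vector bundles: the equivalence
-/

open CategoryTheory AlgebraicGeometry

universe u v w w'

namespace Pool.Agent.Y148.OP

open Pool.Agent.H914 Pool.Agent.H914.VarClass Pool.Agent.H914.VarClass.Obj Pool.Agent.W492.BB
  Pool.Agent.W550.Corr Pool.Agent.TH133 Pool.Agent.Y148.BB

set_option linter.unusedSectionVars false
set_option linter.unusedVariables false

variable {k : Type u} [Field k] {𝒱 : VarClass k} {C : TheoryData.{u, v, 0} 𝒱 ℚ}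
  [hC : IsChowProj C] {D : TheoryData.{u, w', 0} 𝒱 ℚ} [hD : IsChowProj D]
  {φ : TheoryHom C D} {K : Type w} [Field K]
  {H : WeilTheoryData.{u, w', w} D K} [hH : IsWeilProj H] {X Y Z W : 𝒱.Obj}

include hC hD hH

/-- The homologically trivial cycles. -/
noncomputable def homTrivC (φ : TheoryHom C D) (H : WeilTheoryData.{u, w', w} D K)
    [IsWeilProj H] (Y : 𝒱.Obj) : Submodule ℚ (C.A Y) :=
  (homTriv H Y).comap (φ.map Y).toLinearMap

lemma mem_homTrivC {y : C.A Y} : y ∈ homTrivC φ H Y ↔ H.cl (φ.map Y y) = 0 := Iff.rfl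

lemma homTrivC_le_mulLeft (v : C.A Y) :
    homTrivC φ H Y ≤ (homTrivC φ H Y).comap (LinearMap.mulLeft ℚ v) := by
  intro y hy
  have h0 : H.cl (φ.map Y y) = 0 := hy
  change H.cl (φ.map Y (v * y)) = 0
  rw [map_mul, map_mul, h0, mul_zero]

lemma homTrivC_le_actL (l : C.A (Y.prod Y)) :
    homTrivC φ H Y ≤ (homTrivC φ H Y).comap (C.actL l) := by
  intro y hy
  have h0 : H.cl (φ.map Y y) = 0 := hy
  change H.cl (φ.map Y (C.act l y)) = 0
  rw [map_act, cl_act', h0, TheoryData.act_map_zero]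

/-- The operators on the algebraic classes. -/
lemma cls_sl2C {v : C.A Y} (hv : v ∈ C.gr Y 1) {l : C.A (Y.prod Y)}
    (hlm : l ∈ C.gr (Y.prod Y) (Y.dim - 1)) (hl : IsLambda H (φ.map Y v) (φ.map _ l)) : IsSl2
      ((homTrivC φ H Y).mapQ (homTrivC φ H Y) (LinearMap.mulLeft ℚ v) (homTrivC_le_mulLeft v))
      ((homTrivC φ H Y).mapQ (homTrivC φ H Y) (C.actL l) (homTrivC_le_actL l))
      (fun m => (C.gr Y m).map (homTrivC φ H Y).mkQ) Y.dim where
  E_mem m y hy := by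
    obtain ⟨x, hx, rfl⟩ := hy
    exact ⟨v * x, mul_deg_one' hv hx, rfl⟩
  F_mem m y hy := by
    obtain ⟨x, hx, rfl⟩ := hy
    exact ⟨C.act l x, act_lambda_mem' hlm hx, rfl⟩
  rel m y hy := by
    obtain ⟨x, hx, rfl⟩ := hy
    have h1 : v * C.act l x - C.act l (v * x) - ((2 * m - Y.dim : ℤ) : ℚ) • x ∈
        homTrivC φ H Y := by
      rw [mem_homTrivC, Int.cast_smul_eq_zsmul, map_sub, map_sub, map_sub, map_sub, map_zsmul,
        cl_zsmul, map_mul, map_act, map_act, map_mul, map_mul, cl_act', cl_act', map_mul,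
        sub_eq_zero]
      exact hl.2 _ _ (H.cl_mem (φ.deg hx))
    have h2 := (Submodule.Quotient.mk_eq_zero (homTrivC φ H Y)).2 h1
    have h3 : (homTrivC φ H Y).mkQ (v * C.act l x - C.act l (v * x) -
      ((2 * m - Y.dim : ℤ) : ℚ) • x) = 0 := h2
    rw [map_sub, map_sub, map_smul, sub_eq_zero] at h3
    exact h3
  low := ⟨0, fun m hm => by rw [C.gr_neg Y m hm, Submodule.map_bot]⟩
  high := ⟨Y.dim, fun m hm => by
    rw [eq_bot_iff]
    rintro y ⟨x, hx, rfl⟩
    rw [Submodule.mem_bot, hC.gr_top Y m x hx hm, map_zero]⟩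

/-- The operators on the homologically trivial cycles. -/
lemma hom_sl2C (hJ : JacobianProperty H) (hI : ∀ m, InjectiveProjective φ Y m) {v : C.A Y}
    (hv : v ∈ C.gr Y 1) {l : C.A (Y.prod Y)} (hlm : l ∈ C.gr (Y.prod Y) (Y.dim - 1))
    (hl : IsLambda H (φ.map Y v) (φ.map _ l)) : IsSl2 (LinearMap.mulLeft ℚ v) (C.actL l)
      (fun m => C.gr Y m ⊓ homTrivC φ H Y) (Y.dim + 1) where
  E_mem m y hy := ⟨mul_deg_one' hv hy.1, homTrivC_le_mulLeft v hy.2⟩
  F_mem m y hy := ⟨act_lambda_mem' hlm hy.1, homTrivC_le_actL l hy.2⟩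
  rel m y hy := by
    change v * C.act l y - C.act l (v * y) = _
    rw [← sub_eq_zero]
    apply hI m
    · apply Submodule.sub_mem
      · have h1 := mul_deg_one' hv (act_lambda_mem' hlm hy.1)
        have h2 := act_lambda_mem' hlm (mul_deg_one' hv hy.1)
        rw [sub_add_cancel] at h1
        rw [add_sub_cancel_right] at h2
        exact Submodule.sub_mem _ h1 h2
      · exact Submodule.smul_mem _ _ hy.1
    · rw [map_sub, map_sub, map_smul, map_mul, map_act, map_act, map_mul, sub_eq_zero]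
      exact weight_hom hJ hl (φ.deg hy.1) hy.2
  low := ⟨0, fun m hm => by rw [C.gr_neg Y m hm, bot_inf_eq]⟩
  high := ⟨Y.dim, fun m hm => by
    rw [eq_bot_iff]
    intro y hy
    exact (Submodule.mem_bot _).2 (hC.gr_top Y m y hy.1 hm)⟩

/-- Surjectivity on classes. -/
lemma surj_cls {v : C.A Y} (hv : v ∈ C.gr Y 1) {l : C.A (Y.prod Y)}
    (hlm : l ∈ C.gr (Y.prod Y) (Y.dim - 1)) (hl : IsLambda H (φ.map Y v) (φ.map _ l)) (r : ℕ)
    {m : ℤ} (hr : (r : ℤ) ≤ 2 * m - Y.dim) {y : C.A Y} (hy : y ∈ C.gr Y m) :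
    ∃ z ∈ C.gr Y (m - r), H.cl (φ.map Y (y - v ^ r * z)) = 0 := by
  obtain ⟨q, ⟨z, hz, rfl⟩, -, hq⟩ := (cls_sl2C hv hlm hl).surj ⊤ (fun _ _ => trivial)
    (fun _ _ => trivial) r hr (x := (homTrivC φ H Y).mkQ y) ⟨y, hy, rfl⟩ trivial
  refine ⟨z, hz, ?_⟩
  rw [pow_mapQ_mk'] at hq
  have h1 : (homTrivC φ H Y).mkQ (y - v ^ r * z) = 0 := by rw [map_sub, hq, sub_self]
  exact (Submodule.Quotient.mk_eq_zero (homTrivC φ H Y)).1 h1

/-- Surjectivity on homologically trivial cycles. -/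
lemma surj_hom (hJ : JacobianProperty H) (hI : ∀ m, InjectiveProjective φ Y m) {v : C.A Y}
    (hv : v ∈ C.gr Y 1) {l : C.A (Y.prod Y)} (hlm : l ∈ C.gr (Y.prod Y) (Y.dim - 1))
    (hl : IsLambda H (φ.map Y v) (φ.map _ l)) (r : ℕ) {m : ℤ}
    (hr : (r : ℤ) ≤ 2 * m - (Y.dim + 1)) {y : C.A Y} (hy : y ∈ C.gr Y m)
    (hy0 : H.cl (φ.map Y y) = 0) :
    ∃ z ∈ C.gr Y (m - r), H.cl (φ.map Y z) = 0 ∧ y = v ^ r * z := by
  obtain ⟨z, hz, -, h⟩ := (hom_sl2C hJ hI hv hlm hl).surj ⊤ (fun _ _ => trivial)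
    (fun _ _ => trivial) r hr (x := y) ⟨hy, hy0⟩ trivial
  refine ⟨z, hz.1, hz.2, ?_⟩
  rw [LinearMap.pow_mulLeft] at h
  exact h.symm

/-- Injectivity on punctured bundles from the standard conjecture and the injectivity on
projective varieties. -/
theorem punctured_of_standardB (hJ : JacobianProperty H) (hI : ∀ m, InjectiveProjective φ Y m)
    {v : C.A Y} (hv : C.Deg 1 v) (hB : StandardB φ H v) (r : ℕ) (m : ℤ) :
    InjectivePunctured φ v r m := by
  obtain ⟨l, hlm, hl⟩ := hB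
  have hv' : φ.map Y v ∈ D.gr Y 1 := φ.deg hv
  rintro y hy ⟨b, hb, hyb⟩
  have hyb' : φ.map Y y = φ.map Y v ^ r * b := hyb
  have hb' : b ∈ D.gr Y (m - r) := hb
  have hy' : y ∈ C.gr Y m := hy
  have hpow : ∀ {m : ℤ} {z : C.A Y} (s : ℕ), z ∈ C.gr Y m → v ^ s * z ∈ C.gr Y (m + s) :=
    fun s hz => pow_mul_mem hv s hz
  by_cases hw : (r : ℤ) + 1 ≤ 2 * m - Y.dim
  · obtain ⟨z1, hz1, h1⟩ := surj_cls hv hlm hl r (m := m) (by omega) hy'
    have h2 := hpow r hz1
    rw [sub_add_cancel] at h2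
    obtain ⟨z2, hz2, -, h3⟩ := surj_hom hJ hI hv hlm hl r (m := m) (by omega)
      (Submodule.sub_mem _ hy' h2) h1
    refine ⟨z1 + z2, Submodule.add_mem _ hz1 hz2, ?_⟩
    change y = v ^ r * (z1 + z2)
    rw [mul_add, ← h3]
    abel
  · -- the weight of `b` is at most `-r`
    obtain ⟨s, hs⟩ := Int.eq_ofNat_of_zero_le (a := Y.dim - 2 * (m - r)) (by omega)
    have hrs : r ≤ s := by omega
    obtain ⟨t, rfl⟩ := Nat.exists_eq_add_of_le hrs
    -- first step: the class of `b` is algebraic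
    obtain ⟨z, hz, h1⟩ := surj_cls hv hlm hl (r + t) (m := m + t) (by push_cast at hs ⊢; omega)
      (hpow t hy')
    have ez : m + (t : ℤ) - ((r + t : ℕ) : ℤ) = m - r := by push_cast; ring
    rw [ez] at hz
    have hb0 : H.cl (b - φ.map Y z) = 0 := by
      have h2 := (cls_sl2 hv' hl).inj (r + t) (m := m - r) (by push_cast at hs ⊢; omega)
        (x := (homTriv H Y).mkQ (b - φ.map Y z))
        ⟨b - φ.map Y z, Submodule.sub_mem _ hb' (φ.deg hz), rfl⟩ (by
          rw [pow_mapQ_mk']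
          refine (Submodule.Quotient.mk_eq_zero (homTriv H Y)).2 ?_
          change H.cl _ = 0
          rw [← h1]
          congr 1
          rw [map_sub, map_mul, map_mul, map_pow, map_pow, hyb', mul_sub, add_comm r t, pow_add,
            mul_assoc, mul_assoc])
      exact (Submodule.Quotient.mk_eq_zero (homTriv H Y)).1 h2
    -- second step
    have hm1 := hpow r hz
    rw [sub_add_cancel] at hm1
    have hy2m : y - v ^ r * z ∈ C.gr Y m := Submodule.sub_mem _ hy' hm1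
    have hy2 : φ.map Y (y - v ^ r * z) = φ.map Y v ^ r * (b - φ.map Y z) := by
      rw [map_sub, map_mul, map_pow, hyb', mul_sub]
    have hy20 : H.cl (φ.map Y (v ^ (t + 1) * (y - v ^ r * z))) = 0 := by
      rw [map_mul, hy2, map_mul, map_mul, hb0, mul_zero, mul_zero]
    obtain ⟨z2, hz2, hz20, h3⟩ := surj_hom hJ hI hv hlm hl (r + (t + 1)) (m := m + (t + 1 : ℕ))
      (by push_cast at hs ⊢; omega) (hpow (t + 1) hy2m) hy20
    have ez2 : m + ((t + 1 : ℕ) : ℤ) - ((r + (t + 1) : ℕ) : ℤ) = m - r := by push_cast; ring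
    rw [ez2] at hz2
    have hb2 : b - φ.map Y z - φ.map Y z2 = 0 := by
      apply (hom_sl2 hJ hv' hl).inj (r + (t + 1)) (m := m - r)
        (by push_cast at hs ⊢; omega)
      · refine ⟨Submodule.sub_mem _ (Submodule.sub_mem _ hb' (φ.deg hz)) (φ.deg hz2), ?_⟩
        exact Submodule.sub_mem _ hb0 hz20
      · rw [LinearMap.pow_mulLeft, LinearMap.mulLeft_apply, mul_sub, sub_eq_zero]
        have h4 := congrArg (φ.map Y) h3
        rw [map_mul, hy2, map_mul, map_pow, map_pow] at h4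
        rw [← h4, ← mul_assoc, ← pow_add, add_comm (t + 1) r]
    refine ⟨z + z2, Submodule.add_mem _ hz hz2, ?_⟩
    change y = v ^ r * (z + z2)
    rw [← sub_eq_zero]
    have hm2 := hpow r (Submodule.add_mem _ hz hz2)
    rw [sub_add_cancel] at hm2
    apply hI m
    · exact Submodule.sub_mem _ hy' hm2
    · have h5 : b = φ.map Y z + φ.map Y z2 := by
        have : b = (b - φ.map Y z - φ.map Y z2) + (φ.map Y z + φ.map Y z2) := by abel
        rw [this, hb2, zero_add]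
      rw [map_sub, map_mul, map_pow, map_add, hyb', h5, sub_self]

/-- The theorem. -/
theorem main_theorem (hJ : JacobianProperty H) (hL : ∀ X : 𝒱.Obj, ∃ v : C.A X,
    HardLefschetz φ H v) :
    (∀ (X : 𝒱.Obj) (v : C.A X), HardLefschetz φ H v →
      XiKilled φ v ∧ (XiZero v → StandardB φ H v)) ∧
    List.TFAE [
      ∀ (Y : 𝒱.Obj) (v : C.A Y), HardLefschetz φ H v → ∀ (r : ℕ) (m : ℤ),
        InjectivePunctured φ v r m,
      (∀ (Y : 𝒱.Obj) (m : ℤ), InjectiveProjective φ Y m) ∧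
        ∀ (X : 𝒱.Obj) (v : C.A X), HardLefschetz φ H v → XiZero v,
      (∀ (Y : 𝒱.Obj) (m : ℤ), InjectiveProjective φ Y m) ∧
        ∀ (X : 𝒱.Obj) (v : C.A X), HardLefschetz φ H v → StandardB φ H v] := by
  refine ⟨fun X v hv => ⟨xi_killed hJ hv, standardB_of_xi hv⟩, ?_⟩
  tfae_have 1 → 2 := by
    intro h
    refine ⟨fun Y m y hy hy0 => ?_, fun X v hv => ?_⟩
    · obtain ⟨v, hv⟩ := hL Y
      obtain ⟨z, hz, hyz⟩ := h Y v hv (m.toNat + 1) m y hy ⟨0, Submodule.zero_mem _, by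
        rw [hy0]
        exact (mul_zero _).symm⟩
      have hz' : z ∈ C.gr Y (m - (m.toNat + 1 : ℕ)) := hz
      rw [C.gr_neg Y _ (by have := Int.self_le_toNat m; push_cast; omega)] at hz'
      rw [hyz, (Submodule.mem_bot _).1 hz']
      exact mul_zero _
    · exact h (X.prod X) (difference v) hv.difference 2 (X.dim + 1) _ (diagonal_mem hv.1)
        (xi_killed hJ hv)
  tfae_have 2 → 3 := by
    rintro ⟨h1, h2⟩
    exact ⟨h1, fun X v hv => standardB_of_xi hv (h2 X v hv)⟩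
  tfae_have 3 → 1 := by
    rintro ⟨h1, h2⟩ Y v hv r m
    exact punctured_of_standardB hJ (h1 Y) hv.1 (h2 Y v hv) r m
  tfae_finish

end Pool.Agent.Y148.OP
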