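import Pool.Agent.Y148.OP.Base

/-!
# The operator `Λ` can be chosen such that the relation of `sl2` holds exactly
-/

open CategoryTheory AlgebraicGeometry

universe u v w w'

namespace Pool.Agent.Y148.OP

open Pool.Agent.H914 Pool.Agent.H914.VarClass Pool.Agent.H914.VarClass.Obj Pool.Agent.W492.BB
  Pool.Agent.W550.Corr Pool.Agent.TH133 Pool.Agent.Y148.BB

set_option linter.unusedSectionVars false
set_option linter.unusedVariables false

/-- The computation in the ring. -/
lemma ring_triple {R : Type*} [Ring R] (e l j : R)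
    (hj : e * j - j * e = ((e * l - l * e) * e - e * (e * l - l * e)) - 2 * e)
    (hw : (e * l - l * e) * j - j * (e * l - l * e) = - j) :
    e * (e * (l + (2 * l + ((e * l - l * e + j) * l - l * (e * l - l * e + j)))) -
      (l + (2 * l + ((e * l - l * e + j) * l - l * (e * l - l * e + j)))) * e) -
      (e * (l + (2 * l + ((e * l - l * e + j) * l - l * (e * l - l * e + j)))) -
      (l + (2 * l + ((e * l - l * e + j) * l - l * (e * l - l * e + j)))) * e) * e =
      - (2 * e) := by
  obtain ⟨h0, hh0⟩ : ∃ h0, h0 = e * l - l * e := ⟨_, rfl⟩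
  rw [← hh0] at hj hw ⊢
  obtain ⟨h, hh⟩ : ∃ h, h = h0 + j := ⟨_, rfl⟩
  rw [← hh]
  have A1 : e * h - h * e = - (2 * e) := by
    rw [hh, mul_add, add_mul]
    have : e * h0 + e * j - (h0 * e + j * e) = (e * h0 - h0 * e) + (e * j - j * e) := by abel
    rw [this, hj]
    abel
  have A2 : h * h0 - h0 * h = j := by
    rw [hh, mul_add, add_mul]
    have : h0 * h0 + j * h0 - (h0 * h0 + h0 * j) = - (h0 * j - j * h0) := by abel
    rw [this, hw, neg_neg]
  have B : e * (h * l - l * h) - (h * l - l * h) * e =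
      (e * h - h * e) * l - l * (e * h - h * e) + (h * (e * l - l * e) - (e * l - l * e) * h) := by
    noncomm_ring
  rw [A1, ← hh0, A2] at B
  have Cc : e * (l + (2 * l + (h * l - l * h))) - (l + (2 * l + (h * l - l * h))) * e = h := by
    have h1 : e * (l + (2 * l + (h * l - l * h))) - (l + (2 * l + (h * l - l * h))) * e =
        (e * l - l * e) + 2 * (e * l - l * e) + (e * (h * l - l * h) - (h * l - l * h) * e) := by
      noncomm_ring
    rw [h1, B, ← hh0, hh]
    have h2 : 2 * h0 = 2 * (e * l) - 2 * (l * e) := by rw [hh0]; noncomm_ring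
    rw [h2]
    noncomm_ring
  rw [Cc, A1]

variable {k : Type u} [Field k] {𝒱 : VarClass k} {D : TheoryData.{u, w', 0} 𝒱 ℚ}
  [hD : IsChowProj D] {X Y Z W : 𝒱.Obj}

section chow

include hD

lemma tp_mulCorr (v : D.A X) : tp D (D.mulCorr v) = D.mulCorr v := by
  have e : Obj.lift (𝟙 X) (𝟙 X) ≫ sw X X = Obj.lift (𝟙 X) (𝟙 X) := by
    apply prod_ext <;> simp [sw, comp_lift]
  rw [tp_eq_push, TheoryData.mulCorr, ← D.push_comp, e]

lemma mulCorr_comp (v : D.A X) (Γ : D.A (X.prod Y)) :
    D.comp (D.mulCorr v) Γ = D.pull (fst X Y) v * Γ := by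
  have h1 := wg_comp (C := D) (𝟙 X) v Γ
  have e1 : prodMap (𝟙 X) (𝟙 Y) = 𝟙 _ := by
    apply prod_ext <;> simp
  rw [e1, D.pull_id, ch_comm D] at h1
  exact h1

lemma comp_mulCorr (v : D.A Y) (Γ : D.A (X.prod Y)) :
    D.comp Γ (D.mulCorr v) = D.pull (snd X Y) v * Γ := by
  have h1 := comp_tp_wg (C := D) (𝟙 Y) v Γ
  have e1 : prodMap (𝟙 X) (𝟙 Y) = 𝟙 _ := by
    apply prod_ext <;> simp
  have e2 : tp D (wg D (𝟙 Y) v) = D.mulCorr v := tp_mulCorr v
  rw [e1, D.pull_id, ch_comm D, e2] at h1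
  exact h1

/-- The multiplication by the difference class is a commutator. -/
lemma difference_mul (v : D.A X) (w : D.A (X.prod X)) :
    (D.pull (fst X X) v - D.pull (snd X X) v) * w =
      D.comp (D.mulCorr v) w - D.comp w (D.mulCorr v) := by
  rw [mulCorr_comp, comp_mulCorr, sub_mul]

lemma mulCorr_mem {v : D.A X} (hv : v ∈ D.gr X 1) : D.mulCorr v ∈ D.gr (X.prod X) (X.dim + 1) := by
  have h := D.push_mem (Obj.lift (𝟙 X) (𝟙 X)) hv
  have e1 : (1 : ℤ) + 1 * (((X.prod X).dim : ℤ) - (X.dim : ℤ)) = X.dim + 1 := by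
    rw [dim_prod]; push_cast; ring
  rwa [e1] at h

end chow

variable {K : Type w} [Field K] {H : WeilTheoryData.{u, w', w} D K} [hH : IsWeilProj H]

include hD hH

/-- The transpose of the weight operator. -/
lemma act_tp_weight {h0 : D.A (X.prod X)}
    (hh : ∀ (i : ℤ), ∀ a ∈ H.gr X i, H.act (H.cl h0) a = ((i - X.dim : ℤ) : K) • a) {i : ℤ}
    {b : H.A X} (hb : b ∈ H.gr X i) :
    H.act (H.cl (tp D h0)) b = ((X.dim - i : ℤ) : K) • b := by
  rw [← sub_eq_zero]
  apply H.nondeg
  have h2 : H.tr X ∘ₗ LinearMap.mulLeft K (H.act (H.cl (tp D h0)) b - ((X.dim - i : ℤ) : K) • b) =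
      0 := by
    apply ext_gr H
    intro j a ha
    rw [LinearMap.comp_apply, LinearMap.mulLeft_apply, LinearMap.zero_apply, sub_mul, map_sub,
      tr_act' H, hh j a ha, mul_smul_comm, smul_mul_assoc, map_smul, map_smul]
    by_cases h : i + j = 2 * X.dim
    · have e : (j - X.dim : ℤ) = X.dim - i := by omega
      rw [e, sub_self]
    · rw [tr_zero H (H.mul_mem hb ha) h, smul_zero, smul_zero, sub_zero]
  exact fun a => LinearMap.congr_fun h2 a

/-- The weight operator acts on the homologically trivial self-correspondences. -/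
lemma weight_comm (hJ : JacobianProperty H) {h0 : D.A (X.prod X)}
    (hh : ∀ (i : ℤ), ∀ a ∈ H.gr X i, H.act (H.cl h0) a = ((i - X.dim : ℤ) : K) • a) {m : ℤ}
    {j : D.A (X.prod X)} (hj : j ∈ D.gr (X.prod X) m) (hj0 : H.cl j = 0) :
    D.comp j h0 - D.comp h0 j = ((2 * m - 1 - 2 * X.dim : ℤ) : ℚ) • j := by
  have h1 := hJ (X.prod X) (X.prod X) (tens D (dg D X) h0 - tens D (tp D h0) (dg D X) -
    (2 * m - 1 - 2 * X.dim : ℤ) • dg D (X.prod X)) m (fun c hc => by
      rw [map_sub H.cl, map_sub H.cl, TheoryData.act_sub, TheoryData.act_sub, cl_zsmul, act_smulK,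
        actH_dg]
      have key : ∀ c ∈ Submodule.span K {c | ∃ (l : ℤ) (a : H.A X) (b : H.A X), a ∈ H.gr X l ∧
          b ∈ H.gr X (2 * m - 1 - l) ∧ c = H.pull (fst X X) a * H.pull (snd X X) b},
          H.act (H.cl (tens D (dg D X) h0)) c - H.act (H.cl (tens D (tp D h0) (dg D X))) c -
            ((2 * m - 1 - 2 * X.dim : ℤ) : K) • c = 0 := by
        intro c hc
        induction hc using Submodule.span_induction with
        | mem c hc =>
          obtain ⟨i, a, b, ha, hb, rfl⟩ := hc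
          have e0 : H.pull (fst X X) a * H.pull (snd X X) b = H.ext a b := rfl
          rw [e0, actH_tens_ext, actH_tens_ext, actH_dg, actH_dg, hh _ b hb,
            act_tp_weight hh ha, ext_smul_left, ext_smul_right, ← sub_smul, ← sub_smul]
          have e : ((2 * m - 1 - i - X.dim : ℤ) : K) - ((X.dim - i : ℤ) : K) -
              ((2 * m - 1 - 2 * X.dim : ℤ) : K) = 0 := by
            push_cast
            ring
          rw [e, zero_smul]
        | zero => rw [TheoryData.act_map_zero, TheoryData.act_map_zero, smul_zero, sub_zero,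
            sub_zero]
        | add x y _ _ hx hy =>
          rw [act_map_add, act_map_add, smul_add]
          have : ∀ a b c a' b' c' : H.A (X.prod X), a + a' - (b + b') - (c + c') =
            (a - b - c) + (a' - b' - c') := by intro a b c a' b' c'; abel
          rw [this, hx, hy, add_zero]
        | smul r x _ hx =>
          rw [act_map_smul, act_map_smul, smul_comm, ← smul_sub, ← smul_sub, hx, smul_zero]
      exact key c (H.kunneth X X _ hc)) j hj hj0
  rw [TheoryData.act_sub, TheoryData.act_sub, act_tens D (ch_comm D), act_tens D (ch_comm D),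
    tp_tp, tp_dg, dg_comp, comp_dg, sub_eq_zero] at h1
  rw [h1, TheoryData.act_apply, smul_mul_assoc, map_zsmul, Int.cast_smul_eq_zsmul]
  congr 1
  exact act_dg D j

/-- The exact relation: the class of the diagonal embedding of `v` is the product of the square
of the difference class and of an element of the given space `S`. -/
theorem exists_triple (hJ : JacobianProperty H) {v : D.A X} (hv : v ∈ D.gr X 1)
    {l : D.A (X.prod X)} (hl : IsLambda H v l) (S : Submodule ℚ (D.A (X.prod X)))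
    (hS : ∀ a ∈ S, ∀ b ∈ S, D.comp a b ∈ S) (hvS : D.mulCorr v ∈ S) (hlS : l ∈ S)
    (hsurj : ∀ j ∈ S, j ∈ D.gr (X.prod X) (X.dim + 1) → H.cl j = 0 → ∃ j' ∈ S,
      j' ∈ D.gr (X.prod X) X.dim ∧ H.cl j' = 0 ∧
        j = (D.pull (fst X X) v - D.pull (snd X X) v) * j') :
    ∃ b ∈ S, b ∈ D.gr (X.prod X) (X.dim - 1) ∧
      D.mulCorr v = (D.pull (fst X X) v - D.pull (snd X X) v) ^ 2 * b := by
  have hem := mulCorr_mem hv
  have hlm : l ∈ D.gr (X.prod X) (X.dim + (-1)) := by rw [← sub_eq_add_neg]; exact hl.1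
  -- the weight operator
  set h0 : D.A (X.prod X) := D.comp l (D.mulCorr v) - D.comp (D.mulCorr v) l with hh0
  have hh0m : h0 ∈ D.gr (X.prod X) X.dim := by
    have h1 := comp_mem D hlm hem
    have h2 := comp_mem D hem hlm
    have e1 : (X.dim : ℤ) + (-1 + 1) = X.dim := by ring
    have e2 : (X.dim : ℤ) + (1 + -1) = X.dim := by ring
    rw [e1] at h1
    rw [e2] at h2
    exact Submodule.sub_mem _ h1 h2
  have hh0S : h0 ∈ S := Submodule.sub_mem _ (hS _ hlS _ hvS) (hS _ hvS _ hlS)
  have hh0a : ∀ (i : ℤ), ∀ a ∈ H.gr X i, H.act (H.cl h0) a = ((i - X.dim : ℤ) : K) • a := by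
    intro i a ha
    rw [hh0, map_sub H.cl, TheoryData.act_sub, actH_comp, actH_comp,
      Pool.Agent.Y148.KL.actH_mulCorr, Pool.Agent.Y148.KL.actH_mulCorr]
    exact hl.2 i a ha
  -- the obstruction
  set j1 : D.A (X.prod X) := D.comp (D.mulCorr v) h0 - D.comp h0 (D.mulCorr v) -
    (2 : ℤ) • D.mulCorr v with hj1
  have hj1m : j1 ∈ D.gr (X.prod X) (X.dim + 1) := by
    have h0' : h0 ∈ D.gr (X.prod X) (X.dim + 0) := by rwa [add_zero]
    have h1 := comp_mem D hem h0'
    have h2 := comp_mem D h0' hem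
    rw [add_zero] at h1
    rw [zero_add] at h2
    exact Submodule.sub_mem _ (Submodule.sub_mem _ h1 h2) (zsmul_mem hem 2)
  have hj1S : j1 ∈ S := Submodule.sub_mem _ (Submodule.sub_mem _ (hS _ hvS _ hh0S)
    (hS _ hh0S _ hvS)) (zsmul_mem hvS 2)
  have hj1c : H.cl j1 = 0 := by
    apply hom_zero_of_act H
    intro a
    have h1 : H.actL (H.cl j1) = 0 := by
      apply ext_gr H
      intro i a ha
      rw [TheoryData.actL_apply, LinearMap.zero_apply, hj1, map_sub H.cl, map_sub H.cl,
        TheoryData.act_sub, TheoryData.act_sub, actH_comp, actH_comp,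
        Pool.Agent.Y148.KL.actH_mulCorr, Pool.Agent.Y148.KL.actH_mulCorr, cl_zsmul, act_smulK,
        Pool.Agent.Y148.KL.actH_mulCorr, hh0a i a ha]
      have h2 := H.mul_mem (H.cl_mem hv) ha
      rw [hh0a _ _ h2, mul_smul_comm, ← sub_smul, ← sub_smul]
      have e : ((2 * 1 + i - X.dim : ℤ) : K) - ((i - X.dim : ℤ) : K) - ((2 : ℤ) : K) = 0 := by
        push_cast
        ring
      rw [e, zero_smul]
    exact LinearMap.congr_fun h1 a
  obtain ⟨j', hj'S, hj'm, hj'c, hj'⟩ := hsurj j1 hj1S hj1m hj1c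
  rw [difference_mul] at hj'
  have hw := weight_comm hJ hh0a hj'm hj'c
  have e1 : ((2 * (X.dim : ℤ) - 1 - 2 * X.dim : ℤ) : ℚ) = -1 := by push_cast; ring
  rw [e1, neg_smul, one_smul] at hw
  -- in the ring
  let e' : Cor D X := D.mulCorr v
  let l' : Cor D X := l
  let j0 : Cor D X := j'
  let k0 : Cor D X := h0
  let j'' : Cor D X := - j0
  have R1 : e' * j'' - j'' * e' = ((e' * l' - l' * e') * e' - e' * (e' * l' - l' * e')) -
      2 * e' := by
    have h1 : e' * j'' - j'' * e' = (j1 : Cor D X) := by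
      change e' * (- j0) - (- j0) * e' = _
      rw [mul_neg, neg_mul, hj']
      change - (e' * j0) - - (j0 * e') = (j0 * e' - e' * j0)
      abel
    rw [h1, hj1]
    have h2 : (2 : Cor D X) * e' = (2 : ℤ) • e' := by rw [two_mul, two_zsmul]
    rw [h2]
    rfl
  have R2 : (e' * l' - l' * e') * j'' - j'' * (e' * l' - l' * e') = - j'' := by
    have h1 : (e' * l' - l' * e') = k0 := rfl
    rw [h1]
    change k0 * (- j0) - (- j0) * k0 = - - j0
    rw [mul_neg, neg_mul, neg_neg]
    have h2 : k0 * j0 - j0 * k0 = - j0 := hw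
    have h3 : - (k0 * j0) - - (j0 * k0) = - (k0 * j0 - j0 * k0) := by abel
    rw [h3, h2, neg_neg]
  have R3 := ring_triple e' l' j'' R1 R2
  set b : Cor D X := l' + (2 * l' + ((e' * l' - l' * e' + j'') * l' -
    l' * (e' * l' - l' * e' + j''))) with hb
  -- the new operator
  have hhS : (e' * l' - l' * e' + j'' : Cor D X) ∈ (show Submodule ℚ (Cor D X) from S) :=
    Submodule.add_mem S hh0S (Submodule.neg_mem S hj'S)
  have hhm : (e' * l' - l' * e' + j'' : Cor D X) ∈
      (show Submodule ℚ (Cor D X) from D.gr (X.prod X) X.dim) :=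
    Submodule.add_mem (D.gr (X.prod X) X.dim) hh0m (Submodule.neg_mem (D.gr (X.prod X) X.dim) hj'm)
  have hbS : (b : D.A (X.prod X)) ∈ S := by
    have h1 : (2 * l' : Cor D X) = l' + l' := two_mul l'
    rw [hb, h1]
    exact Submodule.add_mem S hlS (Submodule.add_mem S (Submodule.add_mem S hlS hlS)
      (Submodule.sub_mem S (hS _ hlS _ hhS) (hS _ hhS _ hlS)))
  have hbm : (b : D.A (X.prod X)) ∈ D.gr (X.prod X) (X.dim - 1) := by
    have h1 : (2 * l' : Cor D X) = l' + l' := two_mul l'
    have hm' : (e' * l' - l' * e' + j'' : Cor D X) ∈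
      (show Submodule ℚ (Cor D X) from D.gr (X.prod X) (X.dim + 0)) := by rw [add_zero]; exact hhm
    have h2 := comp_mem D hlm hm'
    have h3 := comp_mem D hm' hlm
    have e2 : (X.dim : ℤ) + (-1 + 0) = X.dim - 1 := by ring
    have e3 : (X.dim : ℤ) + (0 + -1) = X.dim - 1 := by ring
    rw [e2] at h2
    rw [e3] at h3
    rw [hb, h1]
    exact Submodule.add_mem _ hl.1 (Submodule.add_mem _ (Submodule.add_mem _ hl.1 hl.1)
      (Submodule.sub_mem _ h2 h3))
  let bA : D.A (X.prod X) := b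
  refine ⟨(-(1/2) : ℚ) • bA, Submodule.smul_mem _ _ hbS, Submodule.smul_mem _ _ hbm, ?_⟩
  rw [mul_smul_comm, pow_two, mul_assoc, difference_mul, difference_mul]
  have h4 : D.comp (D.mulCorr v) (D.comp (D.mulCorr v) bA - D.comp bA (D.mulCorr v)) -
      D.comp (D.comp (D.mulCorr v) bA - D.comp bA (D.mulCorr v)) (D.mulCorr v) =
      (- (e' + e') : Cor D X) := by
    have h5 : (- (e' + e') : Cor D X) = - (2 * e') := by rw [two_mul]
    rw [h5, ← R3]
    change ((b * e' - e' * b) * e' - e' * (b * e' - e' * b) : Cor D X) =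
      (e' * (e' * b - b * e') - (e' * b - b * e') * e' : Cor D X)
    noncomm_ring
  rw [h4]
  change (e' : Cor D X) = (-(1/2) : ℚ) • (- (e' + e'))
  rw [smul_neg, neg_smul, neg_neg, smul_add, ← add_smul]
  have e4 : (1/2 : ℚ) + 1/2 = 1 := by norm_num
  rw [e4, one_smul]

end Pool.Agent.Y148.OP
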